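import Mathlib

/-! Generalized Bernoulli polynomials of integral order, through their generating function. -/

namespace Pool.Agent.H516_Bern

open PowerSeries

/-- the power series `(e^t - 1) / t` -/
noncomputable def expQuot : PowerSeries ℝ := PowerSeries.mk fun k => (((k + 1).factorial : ℕ) : ℝ)⁻¹

/-- the power series `(t / (e^t - 1))^a * e^(x t)` -/
noncomputable def gen (a : ℕ) (x : ℝ) : PowerSeries ℝ :=
  expQuot⁻¹ ^ a * PowerSeries.rescale x (PowerSeries.exp ℝ)

/-- the generalized (Norlund) Bernoulli polynomial `B_m^(a)(x)`: `m!` times the coefficient of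
`t^m` in `(t / (e^t - 1))^a * e^(x t)` -/
noncomputable def B (a m : ℕ) (x : ℝ) : ℝ := m.factorial * PowerSeries.coeff m (gen a x)

theorem X_mul_expQuot : (X : PowerSeries ℝ) * expQuot = exp ℝ - 1 := by
  ext n
  cases n with
  | zero => simp
  | succ n =>
    rw [coeff_succ_X_mul, expQuot, coeff_mk]
    simp [coeff_exp, coeff_one]

theorem const_expQuot : constantCoeff expQuot = 1 := by
  rw [← coeff_zero_eq_constantCoeff_apply, expQuot, coeff_mk]
  simp

theorem inv_mul_expQuot : expQuot⁻¹ * expQuot = 1 :=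
  PowerSeries.inv_mul_cancel _ (by rw [const_expQuot]; exact one_ne_zero)

theorem gen_add (a : ℕ) (x y : ℝ) : gen a (x + y) = gen a x * rescale y (exp ℝ) := by
  rw [gen, gen, ← exp_mul_exp_eq_exp_add, mul_assoc]

theorem gen_succ_sub (a : ℕ) (x : ℝ) : gen (a + 1) (x + 1) - gen (a + 1) x = X * gen a x := by
  have h1 : rescale (1 : ℝ) (exp ℝ) = exp ℝ := by
    rw [rescale_one]
    rfl
  rw [gen_add, h1]
  have h2 := X_mul_expQuot
  have h3 := inv_mul_expQuot
  rw [gen, gen, pow_succ]
  set R := rescale x (exp ℝ)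
  set V := expQuot⁻¹
  set E := expQuot
  linear_combination (V ^ a * R * X) * h3 - (V ^ a * V * R) * h2

theorem B_succ_sub (a m : ℕ) (x : ℝ) :
    B (a + 1) (m + 1) (x + 1) - B (a + 1) (m + 1) x = (m + 1) * B a m x := by
  have h := congrArg (coeff (m + 1)) (gen_succ_sub a x)
  rw [map_sub, coeff_succ_X_mul] at h
  rw [B, B, B, ← mul_sub, h, Nat.factorial_succ]
  push_cast
  ring

theorem coeff_rescale_exp (y : ℝ) (r : ℕ) :
    coeff r (rescale y (exp ℝ)) = y ^ r / r.factorial := by
  rw [coeff_rescale, coeff_exp]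
  simp [div_eq_mul_inv]

theorem B_add (a m : ℕ) (x y : ℝ) :
    B a m (x + y) = ∑ r ∈ Finset.range (m + 1), (m.choose r : ℝ) * B a (m - r) x * y ^ r := by
  rw [B, gen_add, mul_comm (gen a x), coeff_mul, Finset.Nat.sum_antidiagonal_eq_sum_range_succ_mk,
    Finset.mul_sum]
  refine Finset.sum_congr rfl fun r hr => ?_
  have hr' : r ≤ m := Nat.lt_succ_iff.1 (Finset.mem_range.1 hr)
  simp only
  rw [coeff_rescale_exp, B, Nat.choose_eq_factorial_div_factorial hr',
    Nat.cast_div (Nat.factorial_mul_factorial_dvd_factorial hr') (by positivity)]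
  push_cast
  have h1 : (r.factorial : ℝ) ≠ 0 := by positivity
  have h2 : ((m - r).factorial : ℝ) ≠ 0 := by positivity
  field_simp

theorem B_zero (a : ℕ) (x : ℝ) : B a 0 x = 1 := by
  rw [B, gen]
  have h1 : constantCoeff (expQuot⁻¹) = 1 := by
    rw [PowerSeries.constantCoeff_inv, const_expQuot]
    simp
  have h2 : constantCoeff (rescale x (exp ℝ)) = 1 := by
    rw [← coeff_zero_eq_constantCoeff_apply, coeff_rescale_exp]
    simp
  rw [coeff_zero_eq_constantCoeff_apply, map_mul, map_pow, h1, h2]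
  simp

/-! the recurrence -/

theorem X_mul_deriv_expQuot : (X : PowerSeries ℝ) * d⁄dX ℝ expQuot = 1 + X * expQuot - expQuot := by
  have h := congrArg (d⁄dX ℝ) X_mul_expQuot
  rw [Derivation.leibniz, map_sub, derivative_exp, derivative_one, derivative_X] at h
  have h2 : exp ℝ = 1 + X * expQuot := by rw [X_mul_expQuot]; ring
  rw [h2] at h
  simp only [smul_eq_mul, mul_one, sub_zero] at h
  linear_combination h

theorem X_mul_deriv_inv : (X : PowerSeries ℝ) * d⁄dX ℝ (expQuot⁻¹) =
    expQuot⁻¹ - X * expQuot⁻¹ - expQuot⁻¹ ^ 2 := by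
  have h := congrArg (d⁄dX ℝ) inv_mul_expQuot
  rw [Derivation.leibniz, derivative_one] at h
  simp only [smul_eq_mul] at h
  have h3 := inv_mul_expQuot
  have h4 := X_mul_deriv_expQuot
  set V := expQuot⁻¹
  set E := expQuot
  -- V * dE + E * dV = 0
  linear_combination (X * V) * h - V ^ 2 * h4 - (X * d⁄dX ℝ V + X * V - V) * h3

theorem X_mul_deriv_pow (a : ℕ) : (X : PowerSeries ℝ) * d⁄dX ℝ (expQuot⁻¹ ^ a) =
    C (a : ℝ) * (expQuot⁻¹ ^ a - X * expQuot⁻¹ ^ a - expQuot⁻¹ ^ (a + 1)) := by
  induction a with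
  | zero => simp
  | succ a ih =>
    rw [pow_succ (expQuot⁻¹) a, Derivation.leibniz]
    simp only [smul_eq_mul]
    have h := X_mul_deriv_inv
    set V := expQuot⁻¹
    rw [Nat.cast_succ, map_add, map_one, pow_succ V (a + 1), pow_succ V a]
    rw [pow_succ V a] at ih
    linear_combination V ^ a * h + V * ih

theorem deriv_rescale_exp (x : ℝ) : d⁄dX ℝ (rescale x (exp ℝ)) = C x * rescale x (exp ℝ) := by
  ext n
  rw [coeff_derivative, coeff_rescale_exp, coeff_C_mul, coeff_rescale_exp, Nat.factorial_succ]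
  push_cast
  have h1 : (n.factorial : ℝ) ≠ 0 := by positivity
  have h2 : (n : ℝ) + 1 ≠ 0 := by positivity
  field_simp
  ring

theorem rec_gen (a : ℕ) (x : ℝ) :
    C (a : ℝ) * gen (a + 1) x =
      C (a : ℝ) * gen a x - X * d⁄dX ℝ (gen a x) + X * (C (x - a) * gen a x) := by
  have h : d⁄dX ℝ (gen a x) = expQuot⁻¹ ^ a * (C x * rescale x (exp ℝ)) +
      rescale x (exp ℝ) * d⁄dX ℝ (expQuot⁻¹ ^ a) := by
    rw [gen, Derivation.leibniz, deriv_rescale_exp]
    rfl
  have h2 := X_mul_deriv_pow a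
  rw [h, gen, gen, map_sub]
  linear_combination rescale x (exp ℝ) * h2

theorem B_rec (m : ℕ) (x : ℝ) : B (m + 2) (m + 1) x = (x - (m + 1)) * B (m + 1) m x := by
  have h := congrArg (coeff (m + 1)) (rec_gen (m + 1) x)
  rw [map_add, map_sub, coeff_C_mul, coeff_C_mul, coeff_succ_X_mul, coeff_derivative,
    coeff_succ_X_mul, coeff_C_mul] at h
  rw [B, B, Nat.factorial_succ]
  push_cast at h ⊢
  linear_combination (m.factorial : ℝ) * h

theorem B_prod (m : ℕ) (x : ℝ) : B (m + 1) m x = ∏ j ∈ Finset.range m, (x - (j + 1)) := by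
  induction m with
  | zero => simp [B_zero]
  | succ m ih => rw [Finset.prod_range_succ, ← ih, B_rec, mul_comm]

theorem hasDerivAt_B (a m : ℕ) (x : ℝ) :
    HasDerivAt (fun y => B a (m + 1) y) ((m + 1) * B a m x) x := by
  have h : ∀ y, B a (m + 1) y = ∑ r ∈ Finset.range (m + 1 + 1),
      ((m + 1).choose r : ℝ) * B a (m + 1 - r) x * (y - x) ^ r := by
    intro y
    have := B_add a (m + 1) x (y - x)
    rwa [add_sub_cancel] at this
  have h2 : HasDerivAt (fun y => ∑ r ∈ Finset.range (m + 1 + 1),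
      ((m + 1).choose r : ℝ) * B a (m + 1 - r) x * (y - x) ^ r)
      (∑ r ∈ Finset.range (m + 1 + 1),
        ((m + 1).choose r : ℝ) * B a (m + 1 - r) x * (r * (x - x) ^ (r - 1) * 1)) x := by
    apply HasDerivAt.fun_sum
    intro r _
    apply HasDerivAt.const_mul
    exact ((hasDerivAt_id x).sub_const x).pow r
  have h3 : (∑ r ∈ Finset.range (m + 1 + 1),
        ((m + 1).choose r : ℝ) * B a (m + 1 - r) x * (r * (x - x) ^ (r - 1) * 1)) =
      (m + 1) * B a m x := by
    rw [Finset.sum_eq_single 1]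
    · simp
    · intro b _ hb
      rcases Nat.eq_zero_or_pos b with h0 | h0
      · simp [h0]
      · have : b - 1 ≠ 0 := by omega
        simp [this]
    · intro h
      exfalso
      apply h
      simp
  rw [h3] at h2
  exact h2.congr_of_eventuallyEq (Filter.Eventually.of_forall h)

/-- The value of `B_n^(n)` at an integer point is a product of `n` consecutive shifts evaluated at
an intermediate point. -/
theorem B_diag_mvt (n : ℕ) (k : ℝ) :
    ∃ ξ, k < ξ ∧ ξ < k + 1 ∧ B n n k = ∏ j ∈ Finset.range n, (ξ - (j + 1)) := by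
  have hd := fun x => hasDerivAt_B (n + 1) n x
  obtain ⟨c, hc, h⟩ := exists_hasDerivAt_eq_slope (fun y => B (n + 1) (n + 1) y)
    (fun x => (n + 1) * B (n + 1) n x) (show k < k + 1 by linarith)
    (fun x _ => (hd x).continuousAt.continuousWithinAt) (fun x _ => hd x)
  refine ⟨c, hc.1, hc.2, ?_⟩
  have h2 := B_succ_sub n n k
  have hn : ((n : ℝ) + 1) ≠ 0 := by positivity
  simp only [h2, add_sub_cancel_left, div_one] at h
  rw [← B_prod]
  exact (mul_left_cancel₀ hn h).symm

end Pool.Agent.H516_Bern
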