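import Mathlib
import Pool.Agent.H516_Bern.Defs

/-! Real zeros of `B_n^(n)` and the signs of the coefficients of `Q(h) Q(-h)`. -/

namespace Pool.Agent.H516_Bern

open Polynomial

theorem B_diag_sign {n i : ℕ} (hi : i < n) : B n n i * B n n (i + 1) < 0 := by
  obtain ⟨ξ, h1, h2, h3⟩ := B_diag_mvt n (i : ℝ)
  obtain ⟨η, g1, g2, g3⟩ := B_diag_mvt n ((i : ℝ) + 1)
  rw [h3, g3, ← Finset.prod_mul_distrib, ← Finset.mul_prod_erase _ _ (Finset.mem_range.2 hi)]
  apply mul_neg_of_neg_of_pos
  · exact mul_neg_of_neg_of_pos (by linarith) (by linarith)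
  · apply Finset.prod_pos
    intro j hj
    have hj' : j ≠ i := (Finset.mem_erase.1 hj).1
    rcases lt_or_gt_of_ne hj' with h | h
    · have : (j : ℝ) + 1 ≤ i := by exact_mod_cast h
      exact mul_pos (by linarith) (by linarith)
    · have : (i : ℝ) + 1 ≤ j := by exact_mod_cast h
      exact mul_pos_of_neg_of_neg (by linarith) (by linarith)

theorem continuous_B_diag {n : ℕ} (hn : 1 ≤ n) : Continuous (fun y => B n n y) := by
  obtain ⟨m, rfl⟩ : ∃ m, n = m + 1 := ⟨n - 1, by omega⟩
  exact continuous_iff_continuousAt.2 fun x => (hasDerivAt_B (m + 1) m x).continuousAt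

theorem exists_root {n i : ℕ} (hi : i < n) : ∃ r : ℝ, (i : ℝ) < r ∧ r < i + 1 ∧ B n n r = 0 := by
  have hs := B_diag_sign hi
  have hc := continuous_B_diag (n := n) (by omega)
  have hle : (i : ℝ) ≤ i + 1 := by linarith
  have key : ∃ r ∈ Set.Icc (i : ℝ) (i + 1), B n n r = 0 := by
    rcases mul_neg_iff.1 hs with ⟨h1, h2⟩ | ⟨h1, h2⟩
    · exact intermediate_value_Icc' hle hc.continuousOn ⟨h2.le, h1.le⟩
    · exact intermediate_value_Icc hle hc.continuousOn ⟨h1.le, h2.le⟩
  obtain ⟨r, ⟨h1, h2⟩, h3⟩ := key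
  refine ⟨r, lt_of_le_of_ne h1 ?_, lt_of_le_of_ne h2 ?_, h3⟩
  · intro h
    rw [h, h3, zero_mul] at hs
    exact lt_irrefl _ hs
  · intro h
    rw [← h, h3, mul_zero] at hs
    exact lt_irrefl _ hs

/-- the polynomial `h ↦ B_n^(n)(x + h)` -/
noncomputable def shiftPoly (n : ℕ) (x : ℝ) : ℝ[X] :=
  ∑ r ∈ Finset.range (n + 1), C ((n.choose r : ℝ) * B n (n - r) x) * X ^ r

/-- the polynomial `h ↦ h^n B_n^(n)(x + 1/h)` -/
noncomputable def revPoly (n : ℕ) (x : ℝ) : ℝ[X] :=
  ∑ r ∈ Finset.range (n + 1), C ((n.choose r : ℝ) * B n r x) * X ^ r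

theorem eval_shiftPoly (n : ℕ) (x h : ℝ) : (shiftPoly n x).eval h = B n n (x + h) := by
  rw [shiftPoly, eval_finsetSum, B_add]
  refine Finset.sum_congr rfl fun r _ => ?_
  simp

theorem coeff_shiftPoly (n : ℕ) (x : ℝ) (r : ℕ) :
    (shiftPoly n x).coeff r = (n.choose r : ℝ) * B n (n - r) x := by
  rw [shiftPoly, finsetSum_coeff]
  simp only [coeff_C_mul_X_pow]
  by_cases hr : r ≤ n
  · rw [Finset.sum_eq_single r]
    · simp
    · intro b _ hb
      rw [if_neg (Ne.symm hb)]
    · intro h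
      exact absurd (Finset.mem_range.2 (by omega)) h
  · rw [Nat.choose_eq_zero_of_lt (by omega), Nat.cast_zero, zero_mul]
    apply Finset.sum_eq_zero
    intro b hb
    rw [if_neg]
    have := Finset.mem_range.1 hb
    omega

theorem coeff_revPoly (n : ℕ) (x : ℝ) (r : ℕ) :
    (revPoly n x).coeff r = (n.choose r : ℝ) * B n r x := by
  rw [revPoly, finsetSum_coeff]
  simp only [coeff_C_mul_X_pow]
  by_cases hr : r ≤ n
  · rw [Finset.sum_eq_single r]
    · simp
    · intro b _ hb
      rw [if_neg (Ne.symm hb)]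
    · intro h
      exact absurd (Finset.mem_range.2 (by omega)) h
  · rw [Nat.choose_eq_zero_of_lt (by omega), Nat.cast_zero, zero_mul]
    apply Finset.sum_eq_zero
    intro b hb
    rw [if_neg]
    have := Finset.mem_range.1 hb
    omega

theorem shiftPoly_natDegree (n : ℕ) (x : ℝ) :
    (shiftPoly n x).natDegree = n ∧ (shiftPoly n x).Monic := by
  have h1 : (shiftPoly n x).coeff n = 1 := by
    rw [coeff_shiftPoly, Nat.choose_self, Nat.sub_self, B_zero]
    simp
  have h2 : (shiftPoly n x).natDegree ≤ n := by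
    rw [natDegree_le_iff_coeff_eq_zero]
    intro N hN
    rw [coeff_shiftPoly, Nat.choose_eq_zero_of_lt hN]
    simp
  have h3 : (shiftPoly n x).natDegree = n :=
    le_antisymm h2 (le_natDegree_of_ne_zero (by rw [h1]; exact one_ne_zero))
  exact ⟨h3, by rw [Monic, leadingCoeff, h3, h1]⟩

theorem shiftPoly_eq_prod (n : ℕ) (x : ℝ) : ∃ s : ℕ → ℝ,
    shiftPoly n x = ∏ i ∈ Finset.range n, (X + C (s i)) := by
  classical
  have hr : ∀ i : ℕ, ∃ r : ℝ, i < n → ((i : ℝ) < r ∧ r < i + 1 ∧ B n n r = 0) := by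
    intro i
    by_cases hi : i < n
    · obtain ⟨r, h⟩ := exists_root hi
      exact ⟨r, fun _ => h⟩
    · exact ⟨0, fun h => absurd h hi⟩
  choose r hr using hr
  refine ⟨fun i => x - r i, ?_⟩
  obtain ⟨hd, hm⟩ := shiftPoly_natDegree n x
  set P := shiftPoly n x
  set R : ℝ[X] := ∏ i ∈ Finset.range n, (X + C (x - r i)) with hR
  have hRm : R.Monic := monic_prod_of_monic _ _ fun i _ => monic_X_add_C _
  have hRd : R.natDegree = n := by
    rw [hR, natDegree_prod_of_monic _ _ (fun i _ => monic_X_add_C _),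
      Finset.sum_congr rfl (fun i _ => natDegree_X_add_C (x - r i))]
    simp
  -- the roots
  let T : Finset ℝ := (Finset.range n).image fun i => r i - x
  have hinj : Set.InjOn (fun i => r i - x) (Finset.range n : Set ℕ) := by
    intro i hi j hj hij
    have hi' := hr i (Finset.mem_range.1 hi)
    have hj' := hr j (Finset.mem_range.1 hj)
    have hij' : r i = r j := by
      have : r i - x = r j - x := hij
      linarith
    have h1 : (i : ℝ) < j + 1 := by linarith [hi'.1, hj'.2.1]
    have h2 : (j : ℝ) < i + 1 := by linarith [hj'.1, hi'.2.1]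
    have h3 : i < j + 1 := by exact_mod_cast h1
    have h4 : j < i + 1 := by exact_mod_cast h2
    omega
  have hT : T.card = n := by
    rw [Finset.card_image_of_injOn hinj, Finset.card_range]
  rcases Nat.eq_zero_or_pos n with h0 | h0
  · have h1 : R = 1 := by
      rw [hR, h0]
      simp
    rw [h1]
    exact hm.natDegree_eq_zero.1 (by rw [hd, h0])
  have hlt : (P - R).degree < T.card := by
    rw [hT]
    have e1 : P.degree = n := by
      rw [degree_eq_natDegree hm.ne_zero, hd]
    have e2 : R.degree = n := by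
      rw [degree_eq_natDegree hRm.ne_zero, hRd]
    have := degree_sub_lt_left (p := P) (q := R) (by rw [e1, e2]) hm.ne_zero
      (by rw [hm.leadingCoeff, hRm.leadingCoeff])
    rwa [e1] at this
  refine Polynomial.eq_of_degree_sub_lt_of_eval_finset_eq T hlt ?_
  intro y hy
  obtain ⟨i, hi, rfl⟩ := Finset.mem_image.1 hy
  have hi' := hr i (Finset.mem_range.1 hi)
  rw [eval_shiftPoly, add_sub_cancel, hi'.2.2, hR, eval_prod]
  symm
  apply Finset.prod_eq_zero hi
  simp

theorem revPoly_eq_prod {n : ℕ} {x : ℝ} {s : ℕ → ℝ}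
    (hs : shiftPoly n x = ∏ i ∈ Finset.range n, (X + C (s i))) :
    revPoly n x = ∏ i ∈ Finset.range n, (1 + C (s i) * X) := by
  apply Polynomial.funext
  intro h
  by_cases h0 : h = 0
  · subst h0
    rw [← coeff_zero_eq_eval_zero, coeff_revPoly, eval_prod]
    simp [B_zero]
  · have e := congrArg (eval (1 / h)) hs
    rw [shiftPoly, eval_finsetSum, eval_prod] at e
    rw [revPoly, eval_finsetSum, eval_prod]
    have e2 : ∑ i ∈ Finset.range (n + 1), eval h (C ((n.choose i : ℝ) * B n i x) * X ^ i) =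
        h ^ n * ∑ i ∈ Finset.range (n + 1),
          eval (1 / h) (C ((n.choose i : ℝ) * B n (n - i) x) * X ^ i) := by
      rw [← Finset.sum_range_reflect, Finset.mul_sum]
      refine Finset.sum_congr rfl fun i hi => ?_
      have hi' : i ≤ n := Nat.lt_succ_iff.1 (Finset.mem_range.1 hi)
      rw [show n + 1 - 1 - i = n - i by omega]
      simp only [eval_mul, eval_C, eval_pow, eval_X, Nat.choose_symm hi']
      have : h ^ n = h ^ (n - i) * h ^ i := by rw [← pow_add, Nat.sub_add_cancel hi']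
      rw [this, one_div, inv_pow]
      field_simp
    rw [e2, e]
    have e3 : h ^ n = ∏ i ∈ Finset.range n, h := by simp
    rw [e3, ← Finset.prod_mul_distrib]
    refine Finset.prod_congr rfl fun i _ => ?_
    simp only [eval_add, eval_X, eval_C, eval_mul, eval_one]
    field_simp

/-- the sign pattern -/
theorem sign_prod (a b : ℕ → ℝ) (ha : ∀ i, 0 ≤ a i) (hb : ∀ i, 0 ≤ b i) (n : ℕ) :
    ∀ k, 0 ≤ (-1 : ℝ) ^ k * (∏ i ∈ Finset.range n, (C (a i) - C (b i) * X ^ 2)).coeff (2 * k) := by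
  induction n with
  | zero =>
    intro k
    rcases Nat.eq_zero_or_pos k with h | h
    · subst h
      simp
    · have : 2 * k ≠ 0 := by omega
      simp [coeff_one, this]
  | succ n ih =>
    intro k
    rw [Finset.prod_range_succ]
    set P := ∏ i ∈ Finset.range n, (C (a i) - C (b i) * X ^ 2)
    have e : P * (C (a n) - C (b n) * X ^ 2) = C (a n) * P - C (b n) * (P * X ^ 2) := by ring
    rw [e, coeff_sub, coeff_C_mul, coeff_C_mul]
    rcases Nat.eq_zero_or_pos k with h | h
    · subst h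
      have h1 : (P * X ^ 2).coeff (2 * 0) = 0 := by
        simp
      rw [h1]
      have := mul_nonneg (ha n) (ih 0)
      simpa using this
    · obtain ⟨m, rfl⟩ : ∃ m, k = m + 1 := ⟨k - 1, by omega⟩
      have h1 : (P * X ^ 2).coeff (2 * (m + 1)) = P.coeff (2 * m) := by
        rw [show 2 * (m + 1) = 2 * m + 2 by ring, coeff_mul_X_pow]
      rw [h1]
      have h2 := mul_nonneg (ha n) (ih (m + 1))
      have h3 := mul_nonneg (hb n) (ih m)
      have : (-1 : ℝ) ^ (m + 1) * (a n * P.coeff (2 * (m + 1)) - b n * P.coeff (2 * m)) =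
          a n * ((-1) ^ (m + 1) * P.coeff (2 * (m + 1))) + b n * ((-1) ^ m * P.coeff (2 * m)) := by
        rw [pow_succ]
        ring
      rw [this]
      linarith

theorem coeff_comp_neg (P : ℝ[X]) (b : ℕ) : (P.comp (-X)).coeff b = (-1) ^ b * P.coeff b := by
  have e : P.comp (-X) = P.comp (C (-1) * X) := by simp
  rw [e, comp_C_mul_X_coeff, mul_comm]

/-- the even coefficients of `P(h) P(-h)` -/
theorem coeff_even (P : ℝ[X]) (k : ℕ) : (P * P.comp (-X)).coeff (2 * k) =
    ∑ j ∈ Finset.range (2 * k + 1), (-1) ^ j * P.coeff j * P.coeff (2 * k - j) := by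
  rw [coeff_mul, Finset.Nat.sum_antidiagonal_eq_sum_range_succ_mk]
  refine Finset.sum_congr rfl fun j hj => ?_
  have hj' : j ≤ 2 * k := Nat.lt_succ_iff.1 (Finset.mem_range.1 hj)
  simp only
  rw [coeff_comp_neg]
  have : (-1 : ℝ) ^ (2 * k - j) = (-1) ^ j := by
    have h1 : (-1 : ℝ) ^ (2 * k - j) * (-1) ^ j = 1 := by
      rw [← pow_add, Nat.sub_add_cancel hj', pow_mul]
      simp
    have h2 : (-1 : ℝ) ^ j * (-1) ^ j = 1 := by
      rw [← pow_add, ← two_mul, pow_mul]
      simp
    have h3 : (-1 : ℝ) ^ j ≠ 0 := pow_ne_zero _ (by norm_num)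
    exact mul_right_cancel₀ h3 (h1.trans h2.symm)
  rw [this]
  ring

theorem shift_even (n : ℕ) (x : ℝ) (k : ℕ) :
    0 ≤ (-1 : ℝ) ^ k * (shiftPoly n x * (shiftPoly n x).comp (-X)).coeff (2 * k) := by
  obtain ⟨s, hs⟩ := shiftPoly_eq_prod n x
  have e : shiftPoly n x * (shiftPoly n x).comp (-X) =
      ∏ i ∈ Finset.range n, (C (s i ^ 2) - C 1 * X ^ 2) := by
    rw [hs, prod_comp, ← Finset.prod_mul_distrib]
    refine Finset.prod_congr rfl fun i _ => ?_
    simp only [add_comp, X_comp, C_comp, map_pow, map_one]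
    ring
  rw [e]
  exact sign_prod _ _ (fun i => sq_nonneg _) (fun _ => zero_le_one) n k

theorem rev_even (n : ℕ) (x : ℝ) (k : ℕ) :
    0 ≤ (-1 : ℝ) ^ k * (revPoly n x * (revPoly n x).comp (-X)).coeff (2 * k) := by
  obtain ⟨s, hs⟩ := shiftPoly_eq_prod n x
  have e : revPoly n x * (revPoly n x).comp (-X) =
      ∏ i ∈ Finset.range n, (C 1 - C (s i ^ 2) * X ^ 2) := by
    rw [revPoly_eq_prod hs, prod_comp, ← Finset.prod_mul_distrib]
    refine Finset.prod_congr rfl fun i _ => ?_
    simp only [add_comp, X_comp, C_comp, map_pow, map_one, mul_comp, one_comp]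
    ring
  rw [e]
  exact sign_prod _ _ (fun _ => zero_le_one) (fun i => sq_nonneg _) n k

end Pool.Agent.H516_Bern
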